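import Pool.Agent.N103.V.Ev

/-!
# Project WT (helper17), modules PRI and CRO: components through a point
-/

set_option autoImplicit false

namespace Pool.Agent.L0h6.WT

open MvPolynomial Pool.Agent.N103 Pool.Agent.N103.V

section Loc

variable {R B : Type} [CommRing R] [CommRing B] [Algebra ℂ R] [Algebra ℂ B] [Algebra R B]
  [IsScalarTower ℂ R B] (M : Submonoid R) [IsLocalization M B]

/-- the ring homomorphism attached to a derivation -/
noncomputable def tsz (B : Type) [CommRing B] [Algebra ℂ B] [Algebra R B] [IsScalarTower ℂ R B]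
    (d : Derivation ℂ R R) : R →+* TrivSqZeroExt B B where
  toFun x := TrivSqZeroExt.inl (algebraMap R B x) + TrivSqZeroExt.inr (algebraMap R B (d x))
  map_zero' := by simp
  map_one' := by
    rw [Derivation.map_one_eq_zero]
    simp
  map_add' x y := by
    ext
    · simp
    · simp only [TrivSqZeroExt.snd_add, TrivSqZeroExt.snd_inl, TrivSqZeroExt.snd_inr, map_add,
        zero_add]
  map_mul' x y := by
    ext
    · simp
    · simp only [TrivSqZeroExt.snd_add, TrivSqZeroExt.snd_mul, TrivSqZeroExt.fst_add,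
        TrivSqZeroExt.fst_inl, TrivSqZeroExt.fst_inr, TrivSqZeroExt.snd_inl,
        TrivSqZeroExt.snd_inr, add_zero, zero_add, Derivation.leibniz, smul_eq_mul,
        map_add, map_mul, op_smul_eq_smul]

theorem tsz_fst (d : Derivation ℂ R R) (x : R) : (tsz B d x).fst = algebraMap R B x := by
  change (TrivSqZeroExt.inl (algebraMap R B x) + TrivSqZeroExt.inr (algebraMap R B (d x))
    : TrivSqZeroExt B B).fst = _
  rw [TrivSqZeroExt.fst_add, TrivSqZeroExt.fst_inl, TrivSqZeroExt.fst_inr, add_zero]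

theorem tsz_snd (d : Derivation ℂ R R) (x : R) : (tsz B d x).snd = algebraMap R B (d x) := by
  change (TrivSqZeroExt.inl (algebraMap R B x) + TrivSqZeroExt.inr (algebraMap R B (d x))
    : TrivSqZeroExt B B).snd = _
  rw [TrivSqZeroExt.snd_add, TrivSqZeroExt.snd_inl, TrivSqZeroExt.snd_inr, zero_add]

include M in
theorem exists_locDer (d : Derivation ℂ R R) :
    ∃ D : Derivation ℂ B B, ∀ x, D (algebraMap R B x) = algebraMap R B (d x) := by
  have hu : ∀ y : M, IsUnit (tsz B d y) := by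
    intro y
    rw [TrivSqZeroExt.isUnit_iff_isUnit_fst, tsz_fst]
    exact IsLocalization.map_units B y
  set f : B →+* TrivSqZeroExt B B := IsLocalization.lift hu with hf
  have hf1 : ∀ x, f (algebraMap R B x) = tsz B d x := fun x => IsLocalization.lift_eq hu x
  have hfst : ∀ x, (f x).fst = x := by
    intro x
    have h : (TrivSqZeroExt.fstHom ℂ B B : TrivSqZeroExt B B →+* B).comp f = RingHom.id B := by
      apply IsLocalization.ringHom_ext M
      ext y
      simp only [RingHom.comp_apply, hf1, RingHom.id_apply]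
      exact tsz_fst d y
    exact congrArg (fun g : B →+* B => g x) h
  refine ⟨Derivation.mk' { toFun := fun x => (f x).snd
                           map_add' := fun x y => by rw [map_add, TrivSqZeroExt.snd_add]
                           map_smul' := fun c x => by
                            have h : c • x = algebraMap R B (algebraMap ℂ R c) * x := by
                              rw [← IsScalarTower.algebraMap_apply, Algebra.smul_def]
                            rw [h, map_mul, hf1, TrivSqZeroExt.snd_mul, tsz_fst, tsz_snd,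
                              Derivation.map_algebraMap, map_zero, RingHom.id_apply,
                              smul_zero, add_zero, smul_eq_mul,
                              Algebra.smul_def, IsScalarTower.algebraMap_apply ℂ R B] }
    (fun x y => by
      simp only [LinearMap.coe_mk, AddHom.coe_mk]
      rw [map_mul, TrivSqZeroExt.snd_mul, hfst, hfst, op_smul_eq_smul]), ?_⟩
  intro x
  change (f (algebraMap R B x)).snd = _
  rw [hf1, tsz_snd]

end Loc

variable {V : Type}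

/-- the localization at the powers of a polynomial -/
theorem exL (F : MvPolynomial V ℂ) (hF : F ≠ 0) :
    ∃ (L : Type) (_ : CommRing L) (_ : Algebra ℂ L) (φ : MvPolynomial V ℂ →ₐ[ℂ] L)
      (D : V → Derivation ℂ L L) (Gi : L), (∀ i p, D i (φ p) = φ (pderiv i p)) ∧ φ F * Gi = 1 ∧
      Function.Injective φ := by
  classical
  have hM : Submonoid.powers F ≤ nonZeroDivisors (MvPolynomial V ℂ) :=
    powers_le_nonZeroDivisors_of_noZeroDivisors hF
  have hinj : Function.Injective (algebraMap (MvPolynomial V ℂ) (Localization.Away F)) :=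
    IsLocalization.injective _ hM
  have hder : ∀ i : V, ∃ E : Derivation ℂ (Localization.Away F)
      (Localization.Away F), ∀ x, E (algebraMap (MvPolynomial V ℂ) (Localization.Away F) x) =
        algebraMap (MvPolynomial V ℂ) (Localization.Away F) (MvPolynomial.pderiv i x) := fun i =>
    exists_locDer (B := Localization.Away F) (Submonoid.powers F) (MvPolynomial.pderiv i)
  choose D hD using hder
  obtain ⟨Gi, hGi⟩ := (IsLocalization.Away.algebraMap_isUnit (S := Localization.Away F) F).exists_right_inv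
  exact ⟨Localization.Away F, inferInstance, inferInstance,
    IsScalarTower.toAlgHom ℂ (MvPolynomial V ℂ) (Localization.Away F), D, Gi, fun i x => hD i x, hGi, hinj⟩

theorem pd_pow (i : V) (k : ℕ) (G : MvPolynomial V ℂ) :
    G * pderiv i (G ^ k) = (k : MvPolynomial V ℂ) * G ^ k * pderiv i G := by
  rcases k with _ | k
  · simp
  · rw [Derivation.leibniz_pow, Nat.add_sub_cancel, smul_eq_mul, nsmul_eq_mul]
    ring

theorem pri_id {L : Type} [CommRing L] (g q g' q' n n' x dx gi s P : L) (m k : ℕ)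
    (h : g ^ k * x = q * n) (e2 : g ^ k * dx + x * P = q * n' + n * q')
    (e3 : g * P = (k : L) * g ^ k * g') (hgi : q ^ (m + 2) * g * gi = 1)
    (hsm : s * ((m + 2 : ℕ) : L) = -1) :
    g ^ (k + 1) * (dx + s * ((((m + 2 : ℕ) : L) * q ^ (m + 1) * q' * g + q ^ (m + 2) * g') * gi) * x) =
      q * (g * n' + (s - (k : L)) * n * g') := by
  linear_combination g * e2 - x * e3 +
        (s * g * (((m + 2 : ℕ) : L) * q ^ (m + 1) * q' * g +
          q ^ (m + 2) * g') * gi - (k : L) * g') * h +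
        (s * n * (((m + 2 : ℕ) : L) * q' * g +
          q * g')) * hgi + (n * q' * g) * hsm

theorem cro_id {L : Type} [CommRing L] (q R F' q' R' u v u' v' x dx gi Pq PR : L) (a k : ℕ)
    (h : q ^ k * R ^ k * x = q ^ (a + 1) * R * (u * R ^ k + v * q ^ k))
    (e2 : q ^ k * R ^ k * dx + x * (q ^ k * PR + R ^ k * Pq) = F' * (u * R ^ k + v * q ^ k) +
      q ^ (a + 1) * R * (u' * R ^ k + u * PR + v' * q ^ k + v * Pq))
    (e3 : q * Pq = (k : L) * q ^ k * q') (e3' : R * PR = (k : L) * R ^ k * R')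
    (hgi : q ^ (a + 1) * R * gi = 1) :
    q ^ (k + 1) * R ^ (k + 1) * (dx + -1 * (F' * gi) * x) =
      q ^ (a + 1) * R * ((q * u' - (k : L) * u * q') * R ^ (k + 1) + (R * v' - (k : L) * v * R') * q ^ (k + 1)) := by
  linear_combination (q * R) * e2 +
        (-(q * R) * F' * gi - (k : L) * (q' * R + q * R')) * h
        + (- R ^ k * R * x + q ^ (a + 1) * R * v * R) * e3
        + (- q ^ k * q * x + q ^ (a + 1) * R * u * q) * e3'
        - (q * R * F' * (u * R ^ k + v * q ^ k)) * hgi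


section U

variable {L : Type} [CommRing L] [Algebra ℂ L] (φ : MvPolynomial V ℂ →ₐ[ℂ] L)

theorem phiC (z : ℂ) : φ (C z) = algebraMap ℂ L z := φ.commutes z

/-- the elements `q n / G ^ k` -/
def Uq (q G : MvPolynomial V ℂ) : Submodule ℂ L where
  carrier := {x | ∃ (k : ℕ) (n : MvPolynomial V ℂ), φ G ^ k * x = φ q * φ n}
  add_mem' := by
    rintro x y ⟨k1, n1, h1⟩ ⟨k2, n2, h2⟩
    refine ⟨k1 + k2, n1 * G ^ k2 + n2 * G ^ k1, ?_⟩
    rw [map_add, map_mul, map_mul, map_pow, map_pow]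
    linear_combination φ G ^ k2 * h1 + φ G ^ k1 * h2
  zero_mem' := ⟨0, 0, by rw [map_zero, mul_zero, mul_zero]⟩
  smul_mem' := by
    rintro z x ⟨k, n, h⟩
    refine ⟨k, C z * n, ?_⟩
    rw [Algebra.smul_def, map_mul, ← phiC φ z]
    linear_combination φ (C z) * h

theorem mem_Uq {q G : MvPolynomial V ℂ} {x : L} :
    x ∈ Uq φ q G ↔ ∃ (k : ℕ) (n : MvPolynomial V ℂ), φ G ^ k * x = φ q * φ n := Iff.rfl

/-- the elements `F (u / q ^ k + v / R ^ k)` -/
def Ur (q R F : MvPolynomial V ℂ) : Submodule ℂ L where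
  carrier := {x | ∃ (k : ℕ) (u v : MvPolynomial V ℂ), φ q ^ k * φ R ^ k * x =
    φ F * (φ u * φ R ^ k + φ v * φ q ^ k)}
  add_mem' := by
    rintro x y ⟨k1, u1, v1, h1⟩ ⟨k2, u2, v2, h2⟩
    refine ⟨k1 + k2, u1 * q ^ k2 + u2 * q ^ k1, v1 * R ^ k2 + v2 * R ^ k1, ?_⟩
    rw [map_add, map_add, map_mul, map_mul, map_mul, map_mul, map_pow, map_pow, map_pow, map_pow]
    linear_combination (φ q ^ k2 * φ R ^ k2) * h1 + (φ q ^ k1 * φ R ^ k1) * h2
  zero_mem' := ⟨0, 0, 0, by rw [map_zero, mul_zero, zero_mul, zero_mul, add_zero, mul_zero]⟩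
  smul_mem' := by
    rintro z x ⟨k, u, v, h⟩
    refine ⟨k, C z * u, C z * v, ?_⟩
    rw [Algebra.smul_def, map_mul, map_mul, ← phiC φ z]
    linear_combination φ (C z) * h

theorem mem_Ur {q R F : MvPolynomial V ℂ} {x : L} :
    x ∈ Ur φ q R F ↔ ∃ (k : ℕ) (u v : MvPolynomial V ℂ), φ q ^ k * φ R ^ k * x =
    φ F * (φ u * φ R ^ k + φ v * φ q ^ k) := Iff.rfl

variable {φ} {D : V → Derivation ℂ L L} {Gi : L} (hD : ∀ i p, D i (φ p) = φ (pderiv i p))

include hD in
theorem nab_Uq {q G : MvPolynomial V ℂ} {m : ℕ} (hGi : φ (q ^ (m + 2) * G) * Gi = 1) {s : ℂ}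
    (hsm : algebraMap ℂ L s * ((m + 2 : ℕ) : L) = -1) (i : V) {x : L} (hx : x ∈ Uq φ q G) :
    nab φ D (q ^ (m + 2) * G) Gi s i x ∈ Uq φ q G := by
  obtain ⟨k, n, h⟩ := (mem_Uq φ).1 hx
  refine (mem_Uq φ).2 ⟨k + 1, G * pderiv i n + (C s - (k : MvPolynomial V ℂ)) * n * pderiv i G, ?_⟩
  have e2 := congrArg (D i) h
  rw [Derivation.leibniz, Derivation.leibniz, smul_eq_mul, smul_eq_mul, smul_eq_mul, smul_eq_mul,
    ← map_pow, hD, hD, hD, map_pow] at e2
  have e3 : φ G * φ (pderiv i (G ^ k)) = (k : L) * φ G ^ k * φ (pderiv i G) := by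
    rw [← map_mul, pd_pow, map_mul, map_mul, map_natCast, map_pow φ]
  have e5 : D i (φ (q ^ (m + 2) * G)) = ((m + 2 : ℕ) : L) * φ q ^ (m + 1) *
      φ (pderiv i q) * φ G + φ q ^ (m + 2) * φ (pderiv i G) := by
    rw [hD, Derivation.leibniz, Derivation.leibniz_pow, smul_eq_mul, smul_eq_mul, smul_eq_mul,
      nsmul_eq_mul, map_add, map_mul, map_mul, map_mul, map_mul, map_natCast, map_pow, map_pow]
    have : m + 2 - 1 = m + 1 := by omega
    rw [this]
    ring
  rw [nab_apply, e5, map_add, map_mul, map_mul, map_mul, map_sub, map_natCast,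
    phiC φ s]
  rw [map_mul, map_pow] at hGi
  exact pri_id _ _ _ _ _ _ _ _ _ _ _ _ _ h e2 e3 hGi hsm

include hD in
theorem nab_Ur {q R : MvPolynomial V ℂ} {a : ℕ} (hGi : φ (q ^ (a + 1) * R) * Gi = 1)
    (i : V) {x : L} (hx : x ∈ Ur φ q R (q ^ (a + 1) * R)) :
    nab φ D (q ^ (a + 1) * R) Gi (-1) i x ∈ Ur φ q R (q ^ (a + 1) * R) := by
  obtain ⟨k, u, v, h⟩ := (mem_Ur φ).1 hx
  refine (mem_Ur φ).2 ⟨k + 1, q * pderiv i u - (k : MvPolynomial V ℂ) * u * pderiv i q,
        R * pderiv i v - (k : MvPolynomial V ℂ) * v * pderiv i R, ?_⟩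
  have hF : φ (q ^ (a + 1) * R) = φ q ^ (a + 1) * φ R := by rw [map_mul, map_pow]
  have e2 := congrArg (D i) h
  have e5 : D i (φ q ^ k * φ R ^ k * x) = φ q ^ k * φ R ^ k * D i x + x * (φ q ^ k * φ (pderiv i (R ^ k)) +
      φ R ^ k * φ (pderiv i (q ^ k))) := by
    rw [Derivation.leibniz, Derivation.leibniz, smul_eq_mul, smul_eq_mul, smul_eq_mul, smul_eq_mul,
      ← map_pow, ← map_pow, hD, hD]
  have e6 : D i (φ (q ^ (a + 1) * R) * (φ u * φ R ^ k + φ v * φ q ^ k)) =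
      D i (φ (q ^ (a + 1) * R)) * (φ u * φ R ^ k + φ v * φ q ^ k) +
      φ q ^ (a + 1) * φ R * (φ (pderiv i u) * φ R ^ k + φ u * φ (pderiv i (R ^ k)) +
        φ (pderiv i v) * φ q ^ k + φ v * φ (pderiv i (q ^ k))) := by
    rw [Derivation.leibniz, map_add, Derivation.leibniz, Derivation.leibniz, ← map_pow, ← map_pow,
      hD i u, hD i (R ^ k), hD i v, hD i (q ^ k), map_pow φ, map_pow φ, hF]
    simp only [smul_eq_mul]
    ring
  rw [e5, e6] at e2
  have e3 : φ q * φ (pderiv i (q ^ k)) = (k : L) * φ q ^ k * φ (pderiv i q) := by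
    rw [← map_mul, pd_pow, map_mul, map_mul, map_natCast, map_pow φ]
  have e3' : φ R * φ (pderiv i (R ^ k)) = (k : L) * φ R ^ k * φ (pderiv i R) := by
    rw [← map_mul, pd_pow, map_mul, map_mul, map_natCast, map_pow φ]
  have hs : algebraMap ℂ L (-1) = -1 := by rw [map_neg, map_one]
  rw [hF] at h hGi
  obtain ⟨F', hF'⟩ : ∃ F', F' = D i (φ (q ^ (a + 1) * R)) := ⟨_, rfl⟩
  rw [← hF'] at e2
  rw [nab_apply, hs, ← hF', hF]
  simp only [map_sub, map_mul, map_natCast]
  exact cro_id _ _ _ _ _ _ _ _ _ _ _ _ _ _ _ _ h e2 e3 e3' hGi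

end U

/-- PRI -/
theorem pri (q G H : MvPolynomial V ℂ) (m : ℕ) (p : V → ℂ) (hm : 2 ≤ m) (hq : Prime q)
    (hqG : ¬ q ∣ G) (hp : eval p q = 0) (hH : eval p H ≠ 0) : ¬ Ev H (q ^ m * G) (-1 / (m : ℂ)) := by
  intro hE
  have hG0 : G ≠ 0 := by
    rintro rfl
    exact hqG (dvd_zero q)
  have hF0 : q ^ m * G ≠ 0 := mul_ne_zero (pow_ne_zero _ hq.ne_zero) hG0
  obtain ⟨L, i1, i2, φ, D, Gi, hD, hGi, hinj⟩ := exL _ hF0
  obtain ⟨m, rfl⟩ : ∃ k, m = k + 2 := ⟨m - 2, by omega⟩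
  have hkc : ((m + 2 : ℕ) : ℂ) ≠ 0 := Nat.cast_ne_zero.2 (by omega)
  obtain ⟨s, hs⟩ : ∃ s : ℂ, s = -1 / ((m + 2 : ℕ) : ℂ) := ⟨_, rfl⟩
  rw [← hs] at hE
  have hsm : algebraMap ℂ L s * ((m + 2 : ℕ) : L) = -1 := by
    have h1 : ((m + 2 : ℕ) : L) = algebraMap ℂ L ((m + 2 : ℕ) : ℂ) := by rw [map_natCast]
    rw [h1, ← map_mul, hs, div_mul_cancel₀ _ hkc, map_neg, map_one]
  have hne : s ≠ -1 := by
    intro h0
    rw [hs, div_eq_iff hkc] at h0
    have h1 : ((m + 2 : ℕ) : ℂ) = 1 := by linear_combination h0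
    have h2 : m + 2 = 1 := by exact_mod_cast h1
    omega
  have hX : ∀ i, ∀ x ∈ Uq φ q G, φ (X i) * x ∈ Uq φ q G := by
    intro i x hx
    obtain ⟨k, n, h⟩ := (mem_Uq φ).1 hx
    refine (mem_Uq φ).2 ⟨k, X i * n, ?_⟩
    rw [map_mul]
    linear_combination φ (X i) * h
  have hFm : φ (q ^ (m + 2) * G) ∈ Uq φ q G := by
    refine (mem_Uq φ).2 ⟨0, q ^ (m + 1) * G, ?_⟩
    rw [map_mul, map_mul, map_pow, map_pow, pow_zero, one_mul]
    ring
  have hmem := hE.mem φ D Gi hD hGi (Uq φ q G) hX (fun i x hx => nab_Uq hD hGi hsm i hx) hFm (Or.inl hne)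
  obtain ⟨k, n, hn⟩ := (mem_Uq φ).1 hmem
  rw [← map_pow, ← map_mul, ← map_mul] at hn
  have h9 := hinj hn
  have h10 : q ∣ G ^ k * H := ⟨n, h9⟩
  rcases hq.dvd_or_dvd h10 with h11 | h11
  · exact hqG (hq.dvd_of_dvd_pow h11)
  · obtain ⟨c, hc⟩ := h11
    apply hH
    rw [hc, map_mul, hp, zero_mul]

/-- the final step -/
theorem cro_end {q R H u v : MvPolynomial V ℂ} {a k : ℕ} {p : V → ℂ} (hq : Prime q)
    (hqR : ¬ q ∣ R) (hR0 : R ≠ 0) (hpq : eval p q = 0) (hpR : eval p R = 0)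
    (h9 : q ^ k * R ^ k * H = q ^ (a + 1) * R * (u * R ^ k + v * q ^ k)) : eval p H = 0 := by
  have hc : q ^ (a + 1) * R ≠ 0 := mul_ne_zero (pow_ne_zero _ hq.ne_zero) hR0
  have h10 : q ^ k * R ^ (k + a) * H =
      u * q ^ (a + 1) * R ^ (k + a + 1) + v * R ^ (a + 1) * q ^ (k + a + 1) := by
    apply mul_left_cancel₀ hc
    have : q ^ (a + 1) * R * (q ^ k * R ^ (k + a) * H) = q ^ (a + 1) * R ^ (a + 1) * (q ^ k * R ^ k * H) := by
      ring
    rw [this, h9]
    ring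
  have h11 : q ^ k ∣ R ^ (k + a + 1) * (u * q ^ (a + 1)) := by
    refine ⟨R ^ (k + a) * H - v * R ^ (a + 1) * q ^ (a + 1), ?_⟩
    linear_combination -h10
  obtain ⟨u', hu'⟩ := hq.pow_dvd_of_dvd_mul_left _ (fun h => hqR (hq.dvd_of_dvd_pow h)) h11
  have h12 : R ^ (k + a) * (H - u' * R) = v * R ^ (a + 1) * q ^ (a + 1) := by
    apply mul_left_cancel₀ (pow_ne_zero k hq.ne_zero)
    rw [hu'] at h10
    linear_combination h10
  have h13 : q ^ (a + 1) ∣ R ^ (k + a) * (H - u' * R) := ⟨v * R ^ (a + 1), by rw [h12]; ring⟩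
  obtain ⟨c', hc'⟩ := hq.pow_dvd_of_dvd_mul_left _ (fun h => hqR (hq.dvd_of_dvd_pow h)) h13
  have h14 : H = q ^ (a + 1) * c' + u' * R := by linear_combination hc'
  rw [h14, map_add, map_mul, map_mul, map_pow, hpq, hpR]
  ring

/-- CRO -/
theorem cro (q R H : MvPolynomial V ℂ) (a : ℕ) (p : V → ℂ) (ha : 1 ≤ a) (hq : Prime q)
    (hqR : ¬ q ∣ R) (hpq : eval p q = 0) (hpR : eval p R = 0) (hH : eval p H ≠ 0) :
    ¬ Ev H (q ^ a * R) (-1) := by
  intro hE
  have hR0 : R ≠ 0 := by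
    rintro rfl
    exact hqR (dvd_zero q)
  have hF0 : q ^ a * R ≠ 0 := mul_ne_zero (pow_ne_zero _ hq.ne_zero) hR0
  obtain ⟨L, i1, i2, φ, D, Gi, hD, hGi, hinj⟩ := exL _ hF0
  obtain ⟨a, rfl⟩ : ∃ k, a = k + 1 := ⟨a - 1, by omega⟩
  have hX : ∀ i, ∀ x ∈ Ur φ q R (q ^ (a + 1) * R), φ (X i) * x ∈ Ur φ q R (q ^ (a + 1) * R) := by
    intro i x hx
    obtain ⟨k, u, v, h⟩ := (mem_Ur φ).1 hx
    refine (mem_Ur φ).2 ⟨k, X i * u, X i * v, ?_⟩
    rw [map_mul φ (X i) u, map_mul φ (X i) v]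
    linear_combination φ (X i) * h
  have hFm : φ (q ^ (a + 1) * R) ∈ Ur φ q R (q ^ (a + 1) * R) := by
    refine (mem_Ur φ).2 ⟨0, 1, 0, ?_⟩
    rw [map_one, map_zero, pow_zero, pow_zero, one_mul, one_mul, mul_one, add_zero, mul_one]
  have hdF : ∀ i, φ (pderiv i (q ^ (a + 1) * R)) ∈ Ur φ q R (q ^ (a + 1) * R) := by
    intro i
    refine (mem_Ur φ).2 ⟨1, ((a + 1 : ℕ) : MvPolynomial V ℂ) * pderiv i q, pderiv i R, ?_⟩
    rw [Derivation.leibniz, Derivation.leibniz_pow, Nat.add_sub_cancel, smul_eq_mul, smul_eq_mul,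
        smul_eq_mul, nsmul_eq_mul, map_add, map_mul φ (q ^ (a + 1)), map_mul φ R, map_mul φ ((a + 1 : ℕ) : MvPolynomial V ℂ),
        map_mul φ (q ^ a), map_mul φ (q ^ (a + 1)) R, map_pow, map_pow, map_mul φ ((a + 1 : ℕ) : MvPolynomial V ℂ), map_natCast]
    ring
  have hmem := hE.mem φ D Gi hD hGi (Ur φ q R (q ^ (a + 1) * R)) hX
    (fun i x hx => nab_Ur hD hGi i hx) hFm (Or.inr hdF)
  obtain ⟨k, u, v, hn⟩ := (mem_Ur φ).1 hmem
  rw [← map_pow, ← map_pow, ← map_mul, ← map_mul, ← map_mul, ← map_mul, ← map_add, ← map_mul] at hn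
  exact hH (cro_end hq hqR hR0 hpq hpR (hinj hn))

end Pool.Agent.L0h6.WT
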