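import Pool.Agent.L0h17.WT.Stm
import Pool.Agent.L0h6.WT.Core

/-!
# Project WT (helper17), module CRO
-/

set_option autoImplicit false

namespace Pool.Agent.L0h6.WT

/-- CRO -/
theorem t_CRO : Pool.Agent.L0h17.WT.S_CRO := by
  intro V q R H a p ha hq hqR hpq hpR hH
  exact cro q R H a p ha hq hqR hpq hpR hH

end Pool.Agent.L0h6.WT
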